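import Pool.Agent.J4.H93.RZ.K1
import Pool.Agent.J4.H93.RZ.K2
import Pool.Agent.J4.H93.RZ.GI2
import Pool.Agent.J4.H93.RZ.Du
import Pool.Agent.J4.H93.RZ.PO

/-!
# The periodic Riesz kernel of the hexagonal torus for `s > 2` is the lattice sum minus a constant
-/

set_option autoImplicit false

open MeasureTheory Set

namespace Pool.Agent.J4.H56.RZX

open Pool.Agent.TH478.CE Pool.Agent.J4.H93.RZ

theorem kern_two (s : ℝ) (hs : 0 < s) (z : P) :
    IntegrableOn (fun u : ℝ => u ^ (s / 2 - 1) * (Th2 u z - Real.pi / u)) (Ioo 0 1) ∧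
    Real.pi * ∑' w : {w : P // w ∈ Dual ∧ w ≠ 0}, Real.cos (2 * Real.pi * inner ℝ w.1 z) *
        ((Real.pi * ‖w.1‖) ^ (s - 2) * Gam ((2 - s) / 2) (Real.pi ^ 2 * ‖w.1‖ ^ 2)) =
      ∫ u in Ioo (0 : ℝ) 1, u ^ (s / 2 - 1) * (Th2 u z - Real.pi / u) :=
  kern_two_of (fun σ ρ hρ => gam_two σ ρ hρ) norm_dualPt dual_tsum
    (fun u hu z => poisson_hex u hu z) s hs z

theorem Kp_eq (s : ℝ) (hs : 0 < s) (z : P) (hz : ∀ m : ℤ × ℤ, z + hexPt m ≠ 0) :
    Kp s z = 1 / Real.Gamma (s / 2) *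
      ((∫ u in Ioo (0 : ℝ) 1, u ^ (s / 2 - 1) * (Th2 u z - Real.pi / u)) +
        ∫ u in Ioi (1 : ℝ), u ^ (s / 2 - 1) * Th2 u z) := by
  unfold Kp
  rw [(kern_one s hs z hz).2, ← (kern_two s hs z).2]
  ring

/-- the constant -/
noncomputable def cs (s : ℝ) : ℝ := 2 * Real.pi / (Real.Gamma (s / 2) * (s - 2))

lemma gam_lint {σ : ℝ} (hσ : 0 < σ) {ρ : ℝ} (hρ : 0 < ρ) :
    ∫⁻ u in Ioi (0 : ℝ), ENNReal.ofReal (u ^ (σ - 1) * Real.exp (-(u * ρ ^ 2))) =
      ENNReal.ofReal (ρ ^ (-(2 * σ))) * ENNReal.ofReal (Real.Gamma σ) := by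
  have h2 : ∫ u in Ioi (0 : ℝ), u ^ (σ - 1) * Real.exp (-(ρ ^ 2 * u)) =
      (1 / ρ ^ 2) ^ σ * Real.Gamma σ :=
    Real.integral_rpow_mul_exp_neg_mul_Ioi hσ (by positivity)
  have hG := Real.Gamma_pos_of_pos hσ
  have e : ∀ u : ℝ, u ^ (σ - 1) * Real.exp (-(u * ρ ^ 2)) =
      u ^ (σ - 1) * Real.exp (-(ρ ^ 2 * u)) := fun u => by rw [mul_comm u]
  have e3 : (1 / ρ ^ 2) ^ σ = ρ ^ (-(2 * σ)) := by
    rw [one_div, Real.inv_rpow (by positivity), ← Real.rpow_natCast ρ 2, ← Real.rpow_mul hρ.le,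
      Real.rpow_neg hρ.le]
    norm_num
  have h4 : Integrable (fun u : ℝ => u ^ (σ - 1) * Real.exp (-(ρ ^ 2 * u)))
      (volume.restrict (Ioi 0)) := by
    by_contra hn
    have h5 := integral_undef hn
    rw [h2] at h5
    have : 0 < (1 / ρ ^ 2) ^ σ * Real.Gamma σ := by positivity
    linarith
  simp_rw [e]
  rw [← ofReal_integral_eq_lintegral_ofReal h4, h2, e3, ENNReal.ofReal_mul (by positivity)]
  filter_upwards [self_mem_ae_restrict measurableSet_Ioi] with u hu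
  have hu' : (0 : ℝ) < u := hu
  simp only [Pi.zero_apply]
  positivity

lemma Th2_nonneg (u : ℝ) (z : P) : 0 ≤ Th2 u z := tsum_nonneg fun _ => (Real.exp_pos _).le

theorem sum_eq {s : ℝ} (hs : 2 < s) (z : P) (hz : ∀ m : ℤ × ℤ, z + hexPt m ≠ 0) :
    0 ≤ Kp s z + cs s ∧
    ∑' q : ℤ × ℤ, ENNReal.ofReal (‖z + hexPt q‖ ^ (-s)) = ENNReal.ofReal (Kp s z + cs s) := by
  have hs0 : 0 < s := by linarith
  have hs2 : 0 < s / 2 := by positivity
  have hG := Real.Gamma_pos_of_pos hs2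
  obtain ⟨i1, -⟩ := kern_two s hs0 z
  obtain ⟨i2, -⟩ := kern_one s hs0 z hz
  have hK := Kp_eq s hs0 z hz
  set a1 := ∫ u in Ioo (0 : ℝ) 1, u ^ (s / 2 - 1) * (Th2 u z - Real.pi / u) with ha1
  set a2 := ∫ u in Ioi (1 : ℝ), u ^ (s / 2 - 1) * Th2 u z with ha2
  -- the integral of the subtracted part
  have i3 : IntegrableOn (fun u : ℝ => Real.pi * u ^ (s / 2 - 2)) (Ioo 0 1) := by
    have h1 : IntervalIntegrable (fun u : ℝ => u ^ (s / 2 - 2)) volume 0 1 :=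
      intervalIntegral.intervalIntegrable_rpow' (by linarith)
    rw [intervalIntegrable_iff_integrableOn_Ioo_of_le zero_le_one] at h1
    exact h1.const_mul _
  have e3 : ∫ u in Ioo (0 : ℝ) 1, Real.pi * u ^ (s / 2 - 2) = 2 * Real.pi / (s - 2) := by
    rw [integral_const_mul, ← integral_Ioc_eq_integral_Ioo,
      ← intervalIntegral.integral_of_le zero_le_one, integral_rpow (Or.inl (by linarith))]
    rw [Real.one_rpow, Real.zero_rpow (by linarith)]
    have h2 : s - 2 ≠ 0 := by linarith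
    rw [show s / 2 - 2 + 1 = (s - 2) / 2 by ring]
    field_simp
    ring
  have e4 : ∀ u ∈ Ioo (0 : ℝ) 1, u ^ (s / 2 - 1) * Th2 u z =
      u ^ (s / 2 - 1) * (Th2 u z - Real.pi / u) + Real.pi * u ^ (s / 2 - 2) := by
    intro u hu
    have hu0 : (0 : ℝ) < u := hu.1
    have : u ^ (s / 2 - 2) = u ^ (s / 2 - 1) / u := by
      rw [show s / 2 - 2 = (s / 2 - 1) - 1 by ring, Real.rpow_sub_one hu0.ne']
    rw [this]
    ring
  have i4 : IntegrableOn (fun u : ℝ => u ^ (s / 2 - 1) * Th2 u z) (Ioo 0 1) :=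
    (integrableOn_congr_fun e4 measurableSet_Ioo).2 (i1.add i3)
  have e5 : ∫ u in Ioo (0 : ℝ) 1, u ^ (s / 2 - 1) * Th2 u z = a1 + 2 * Real.pi / (s - 2) := by
    rw [setIntegral_congr_fun measurableSet_Ioo e4, integral_add i1 i3, e3]
  have hn1 : 0 ≤ a1 + 2 * Real.pi / (s - 2) := by
    rw [← e5]
    refine setIntegral_nonneg measurableSet_Ioo fun u hu => ?_
    exact mul_nonneg (Real.rpow_nonneg hu.1.le _) (Th2_nonneg u z)
  have hn2 : 0 ≤ a2 := by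
    refine setIntegral_nonneg measurableSet_Ioi fun u hu => ?_
    exact mul_nonneg (Real.rpow_nonneg (zero_le_one.trans hu.le) _) (Th2_nonneg u z)
  have e6 : Real.Gamma (s / 2) * (Kp s z + cs s) = (a1 + 2 * Real.pi / (s - 2)) + a2 := by
    rw [hK]
    unfold cs
    have h2 : s - 2 ≠ 0 := by linarith
    field_simp
    ring
  have hKc : 0 ≤ Kp s z + cs s := by
    have : 0 ≤ Real.Gamma (s / 2) * (Kp s z + cs s) := by rw [e6]; linarith
    exact nonneg_of_mul_nonneg_right this hG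
  refine ⟨hKc, ?_⟩
  -- the sum
  have hl1 : ∫⁻ u in Ioi (0 : ℝ), ENNReal.ofReal (u ^ (s / 2 - 1) * Th2 u z) =
      ENNReal.ofReal (Real.Gamma (s / 2) * (Kp s z + cs s)) := by
    rw [← Ioo_union_Ici_eq_Ioi zero_lt_one, lintegral_union measurableSet_Ici
      (Set.disjoint_left.2 fun u hu hu' => absurd hu.2 (not_lt.2 hu')),
      setLIntegral_congr Ioi_ae_eq_Ici.symm, e6, ENNReal.ofReal_add hn1 hn2, ← e5,
      ofReal_integral_eq_lintegral_ofReal i4, ofReal_integral_eq_lintegral_ofReal i2]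
    · filter_upwards [self_mem_ae_restrict measurableSet_Ioi] with u hu
      exact mul_nonneg (Real.rpow_nonneg (zero_le_one.trans (le_of_lt hu)) _) (Th2_nonneg u z)
    · filter_upwards [self_mem_ae_restrict measurableSet_Ioo] with u hu
      exact mul_nonneg (Real.rpow_nonneg hu.1.le _) (Th2_nonneg u z)
  have hl2 : ∫⁻ u in Ioi (0 : ℝ), ENNReal.ofReal (u ^ (s / 2 - 1) * Th2 u z) =
      ∑' q : ℤ × ℤ, ∫⁻ u in Ioi (0 : ℝ),
        ENNReal.ofReal (u ^ (s / 2 - 1) * Real.exp (-(u * ‖z + hexPt q‖ ^ 2))) := by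
    rw [← lintegral_tsum fun q => by fun_prop]
    refine setLIntegral_congr_fun measurableSet_Ioi fun u hu => ?_
    have hu0 : (0 : ℝ) < u := hu
    show ENNReal.ofReal (u ^ (s / 2 - 1) * Th2 u z) = _
    unfold Th2
    rw [← tsum_mul_left, ENNReal.ofReal_tsum_of_nonneg
      (fun q => mul_nonneg (Real.rpow_nonneg hu0.le _) (Real.exp_pos _).le)
      ((K1.summable_shift hu0 z).mul_left _)]
  have hl3 : ∑' q : ℤ × ℤ, ∫⁻ u in Ioi (0 : ℝ),
        ENNReal.ofReal (u ^ (s / 2 - 1) * Real.exp (-(u * ‖z + hexPt q‖ ^ 2))) =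
      (∑' q : ℤ × ℤ, ENNReal.ofReal (‖z + hexPt q‖ ^ (-s))) * ENNReal.ofReal (Real.Gamma (s / 2)) := by
    rw [← ENNReal.tsum_mul_right]
    refine tsum_congr fun q => ?_
    rw [gam_lint hs2 (norm_pos_iff.2 (hz q))]
    congr 3
    ring
  rw [hl2, hl3, mul_comm (Real.Gamma (s / 2)), ENNReal.ofReal_mul hKc] at hl1
  exact (ENNReal.mul_left_inj (by simpa using hG) ENNReal.ofReal_ne_top).1 hl1

end Pool.Agent.J4.H56.RZX
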